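import Mathlib

/-!
# Graphs that are isomorphic to the graph of their maximal matchings of size two
-/

set_option autoImplicit false

namespace Pool.Agent.KS6_12.IG

open Finset

variable {V : Type} [Fintype V] [DecidableEq V]

/-- `P` is a bijection of the vertices and the edges of `H` such that the vertices `x, y` are adjacent iff the edges
`P x, P y` form a maximal matching, and `H` has no triangle. -/
structure Data (H : SimpleGraph V) (P : V → Sym2 V) : Prop where
  mem : ∀ x, P x ∈ H.edgeSet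
  surj : ∀ e ∈ H.edgeSet, ∃ x, P x = e
  inj : Function.Injective P
  adj : ∀ x y, H.Adj x y ↔ (∀ v, v ∈ P x → v ∉ P y) ∧ ∀ w, ∃ v, v ∈ P w ∧ (v ∈ P x ∨ v ∈ P y)
  tri : ∀ u v w, H.Adj u v → H.Adj u w → ¬ H.Adj v w

variable {H : SimpleGraph V} [DecidableRel H.Adj] {P : V → Sym2 V}

theorem Data.form (D : Data H P) {x v : V} (h : v ∈ P x) : ∃ u, P x = s(v, u) ∧ H.Adj v u := by
  obtain ⟨u, hu⟩ := Sym2.mem_iff_exists.1 h
  refine ⟨u, hu, ?_⟩
  have := D.mem x
  rw [hu] at this
  exact this

theorem Data.card_eq (D : Data H P) : #H.edgeFinset = Fintype.card V := by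
  have : H.edgeFinset = univ.image P := by
    ext e
    rw [SimpleGraph.mem_edgeFinset, mem_image]
    constructor
    · intro h
      obtain ⟨x, hx⟩ := D.surj e h
      exact ⟨x, mem_univ _, hx⟩
    · rintro ⟨x, -, rfl⟩
      exact D.mem x
  rw [this, card_image_of_injective _ D.inj, card_univ]

theorem Data.exists_max (D : Data H P) [Nonempty V] :
    ∃ x0, 2 ≤ H.degree x0 ∧ ∀ v, H.degree v ≤ H.degree x0 := by
  obtain ⟨x0, hx0⟩ := H.exists_maximal_degree_vertex
  have hmax : ∀ v, H.degree v ≤ H.degree x0 := fun v => hx0 ▸ H.degree_le_maxDegree v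
  refine ⟨x0, ?_, hmax⟩
  by_contra hcon
  push Not at hcon
  have h1 := H.sum_degrees_eq_twice_card_edges
  rw [D.card_eq] at h1
  have h2 : ∑ v, H.degree v ≤ ∑ _v : V, 1 := sum_le_sum fun v _ => by have := hmax v; omega
  rw [sum_const, card_univ, smul_eq_mul, mul_one] at h2
  have h3 : 0 < Fintype.card V := Fintype.card_pos
  omega

/-- the conclusion: `H` is a cycle of length five. -/
def Five (P : V → Sym2 V) : Prop :=
  ∃ a b c p q x0 y0 z0 u0 v0 : V, (a ≠ b ∧ a ≠ c ∧ a ≠ p ∧ a ≠ q ∧ b ≠ c ∧ b ≠ p ∧ b ≠ q ∧ c ≠ p ∧ c ≠ q ∧ p ≠ q) ∧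
    P x0 = s(a, b) ∧ P y0 = s(a, p) ∧ P z0 = s(b, q) ∧ P u0 = s(c, p) ∧ P v0 = s(c, q) ∧
    ∀ w, w = x0 ∨ w = y0 ∨ w = z0 ∨ w = u0 ∨ w = v0

theorem Data.caseA (D : Data H P) {x0 a b c y0 p z q : V} (hmax : ∀ v, H.degree v ≤ H.degree x0)
    (ht : 2 ≤ H.degree x0) (hab : P x0 = s(a, b)) (inc : ∀ w, H.Adj x0 w ↔ c ∈ P w)
    (F : ∀ w, a ∉ P w → b ∉ P w → c ∈ P w) (hdeg : H.degree c = H.degree x0)
    (hy : P y0 = s(a, p)) (hpb : p ≠ b) (hcy : c ∉ P y0) (hz : P z = s(b, q)) (hyz : H.Adj y0 z) : Five P := by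
  have Hab : H.Adj a b := by have := D.mem x0; rwa [hab] at this
  have Hap : H.Adj a p := by have := D.mem y0; rwa [hy] at this
  have Hbq : H.Adj b q := by have := D.mem z; rwa [hz] at this
  have hdisj : ∀ w, c ∈ P w → a ∉ P w ∧ b ∉ P w := by
    intro w hw
    have h := ((D.adj x0 w).1 ((inc w).2 hw)).1
    exact ⟨h a (by rw [hab]; simp), h b (by rw [hab]; simp)⟩
  have hcz : c ∉ P z := fun h => (hdisj z h).2 (by rw [hz]; simp)
  have hca : c ≠ a := by rintro rfl; exact hcy (by rw [hy]; simp)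
  have hcp : c ≠ p := by rintro rfl; exact hcy (by rw [hy]; simp)
  have hcb : c ≠ b := by rintro rfl; exact hcz (by rw [hz]; simp)
  have hcq : c ≠ q := by rintro rfl; exact hcz (by rw [hz]; simp)
  obtain ⟨hd, hcov⟩ := (D.adj y0 z).1 hyz
  have hqa : q ≠ a := by
    rintro rfl
    exact hd q (by rw [hy]; simp) (by rw [hz]; simp)
  have hpq : p ≠ q := by
    rintro rfl
    exact hd p (by rw [hy]; simp) (by rw [hz]; simp)
  have hN : ∀ r, H.Adj c r → r = p ∨ r = q := by
    intro r hr
    obtain ⟨w, hw⟩ := D.surj s(c, r) hr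
    have hda := hdisj w (by rw [hw]; simp)
    obtain ⟨v, hv, hv'⟩ := hcov w
    rw [hw, Sym2.mem_iff] at hv
    rw [hw] at hda
    rw [hy, hz, Sym2.mem_iff, Sym2.mem_iff] at hv'
    simp only [Sym2.mem_iff, not_or] at hda
    rcases hv with rfl | rfl
    · rcases hv' with (h | h) | (h | h)
      · exact absurd h hca
      · exact absurd h hcp
      · exact absurd h hcb
      · exact absurd h hcq
    · rcases hv' with (h | h) | (h | h)
      · exact absurd h.symm hda.1.2
      · exact Or.inl h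
      · exact absurd h.symm hda.2.2
      · exact Or.inr h
  have hNc : H.neighborFinset c ⊆ {p, q} := by
    intro r hr
    rw [SimpleGraph.mem_neighborFinset] at hr
    rw [mem_insert, mem_singleton]
    exact hN r hr
  have hcard : #({p, q} : Finset V) = 2 := card_pair hpq
  have hc2 : H.degree c ≤ 2 := by
    rw [← H.card_neighborFinset_eq_degree, ← hcard]; exact card_le_card hNc
  have hNc' : H.neighborFinset c = {p, q} :=
    eq_of_subset_of_card_le hNc (by rw [hcard, H.card_neighborFinset_eq_degree]; omega)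
  have Hcp : H.Adj c p := by rw [← SimpleGraph.mem_neighborFinset, hNc']; simp
  have Hcq : H.Adj c q := by rw [← SimpleGraph.mem_neighborFinset, hNc']; simp
  have hNa : ∀ r, H.Adj a r → r = b ∨ r = p := by
    intro r hr
    have h1 : ({b, p} : Finset V) ⊆ H.neighborFinset a := by
      intro s hs
      rw [mem_insert, mem_singleton] at hs
      rw [SimpleGraph.mem_neighborFinset]
      rcases hs with rfl | rfl
      · exact Hab
      · exact Hap
    have h2 := eq_of_subset_of_card_le h1 (by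
      rw [card_pair hpb.symm, H.card_neighborFinset_eq_degree]; have := hmax a; omega)
    have h3 : r ∈ H.neighborFinset a := by rw [SimpleGraph.mem_neighborFinset]; exact hr
    rw [← h2, mem_insert, mem_singleton] at h3
    exact h3
  have hNb : ∀ r, H.Adj b r → r = a ∨ r = q := by
    intro r hr
    have h1 : ({a, q} : Finset V) ⊆ H.neighborFinset b := by
      intro s hs
      rw [mem_insert, mem_singleton] at hs
      rw [SimpleGraph.mem_neighborFinset]
      rcases hs with rfl | rfl
      · exact Hab.symm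
      · exact Hbq
    have h2 := eq_of_subset_of_card_le h1 (by
      rw [card_pair hqa.symm, H.card_neighborFinset_eq_degree]; have := hmax b; omega)
    have h3 : r ∈ H.neighborFinset b := by rw [SimpleGraph.mem_neighborFinset]; exact hr
    rw [← h2, mem_insert, mem_singleton] at h3
    exact h3
  obtain ⟨u0, hu0⟩ := D.surj s(c, p) Hcp
  obtain ⟨v0, hv0⟩ := D.surj s(c, q) Hcq
  refine ⟨a, b, c, p, q, x0, y0, z, u0, v0, ⟨Hab.ne, hca.symm, Hap.ne, hqa.symm, hcb.symm, hpb.symm, Hbq.ne, hcp, hcq,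
    hpq⟩, hab, hy, hz, hu0, hv0, fun w => ?_⟩
  by_cases ha : a ∈ P w
  · obtain ⟨r, hr, hr'⟩ := D.form ha
    rcases hNa r hr' with rfl | rfl
    · exact Or.inl (D.inj (hr.trans hab.symm))
    · exact Or.inr (Or.inl (D.inj (hr.trans hy.symm)))
  by_cases hb : b ∈ P w
  · obtain ⟨r, hr, hr'⟩ := D.form hb
    rcases hNb r hr' with rfl | rfl
    · exact absurd (by rw [hr]; simp) ha
    · exact Or.inr (Or.inr (Or.inl (D.inj (hr.trans hz.symm))))
  obtain ⟨r, hr, hr'⟩ := D.form (F w ha hb)
  rcases hN r hr' with rfl | rfl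
  · exact Or.inr (Or.inr (Or.inr (Or.inl (D.inj (hr.trans hu0.symm)))))
  · exact Or.inr (Or.inr (Or.inr (Or.inr (D.inj (hr.trans hv0.symm)))))

theorem Data.caseB (D : Data H P) {x0 a b c y0 p z1 z2 : V} (hmax : ∀ v, H.degree v ≤ H.degree x0)
    (hab : P x0 = s(a, b)) (inc : ∀ w, H.Adj x0 w ↔ c ∈ P w)
    (F : ∀ w, a ∉ P w → b ∉ P w → c ∈ P w) (hdeg : H.degree c = H.degree x0)
    (hy : P y0 = s(a, p)) (hpb : p ≠ b) (hcy : c ∉ P y0) (hz : z1 ≠ z2) (h1 : H.Adj y0 z1) (h2 : H.Adj y0 z2)
    (hb : ∀ z, H.Adj y0 z → b ∉ P z) : False := by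
  have Hab : H.Adj a b := by have := D.mem x0; rwa [hab] at this
  have Hap : H.Adj a p := by have := D.mem y0; rwa [hy] at this
  have hdisj : ∀ w, c ∈ P w → a ∉ P w ∧ b ∉ P w := by
    intro w hw
    have h := ((D.adj x0 w).1 ((inc w).2 hw)).1
    exact ⟨h a (by rw [hab]; simp), h b (by rw [hab]; simp)⟩
  have hca : c ≠ a := by rintro rfl; exact hcy (by rw [hy]; simp)
  have hzc : ∀ z, H.Adj y0 z → c ∈ P z := fun z h =>
    F z (((D.adj y0 z).1 h).1 a (by rw [hy]; simp)) (hb z h)
  have hcb : c ≠ b := by rintro rfl; exact hb z1 h1 (hzc z1 h1)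
  -- `b` has only one neighbour
  have hw : ∀ v, H.Adj b v → v ≠ a → ∀ z, H.Adj y0 z → P z = s(c, v) := by
    intro v hv hva z hz
    obtain ⟨w, hw⟩ := D.surj s(b, v) hv
    obtain ⟨u, hu, hu'⟩ := ((D.adj y0 z).1 hz).2 w
    rw [hw, Sym2.mem_iff] at hu
    have hcw : c ∉ P w := fun h => (hdisj w h).2 (by rw [hw]; simp)
    have hvc : v ≠ c := by rintro rfl; exact hcw (by rw [hw]; simp)
    rcases hu with rfl | rfl
    · rcases hu' with h | h
      · rw [hy, Sym2.mem_iff] at h
        rcases h with h | h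
        · exact absurd h Hab.ne.symm
        · exact absurd h hpb.symm
      · exact absurd h (hb z hz)
    · rcases hu' with h | h
      · rw [hy, Sym2.mem_iff] at h
        rcases h with h | h
        · exact absurd h hva
        · rw [h] at hv
          exact absurd hv (D.tri a b p Hab Hap)
      · exact (Sym2.mem_and_mem_iff hvc.symm).1 ⟨hzc z hz, h⟩
  have hB : ∀ v, H.Adj b v → v = a := by
    intro v hv
    by_contra hva
    exact hz (D.inj ((hw v hv hva z1 h1).trans (hw v hv hva z2 h2).symm))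
  have F2 : ∀ w, a ∈ P w ∨ c ∈ P w := by
    intro w
    by_cases ha : a ∈ P w
    · exact Or.inl ha
    by_cases hb' : b ∈ P w
    · obtain ⟨v, hv, hv'⟩ := D.form hb'
      rw [hB v hv'] at hv
      exact absurd (by rw [hv]; simp) ha
    · exact Or.inr (F w ha hb')
  have hE : ∀ u v, a ∈ P u → c ∈ P v → (∀ x, x ∈ P u → x ∉ P v) → H.Adj u v := by
    intro u v hu hv hd
    refine (D.adj u v).2 ⟨hd, fun w => ?_⟩
    rcases F2 w with h | h
    · exact ⟨a, h, Or.inl hu⟩
    · exact ⟨c, h, Or.inr hv⟩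
  have hna : ¬ H.Adj c a := by
    intro h
    obtain ⟨w, hw⟩ := D.surj s(c, a) h
    exact (hdisj w (by rw [hw]; simp)).1 (by rw [hw]; simp)
  have hnb : ¬ H.Adj c b := by
    intro h
    obtain ⟨w, hw⟩ := D.surj s(c, b) h
    exact (hdisj w (by rw [hw]; simp)).2 (by rw [hw]; simp)
  have hcount1 : Fintype.card V ≤ H.degree a + H.degree c := by
    rw [← D.card_eq, ← H.card_incidenceFinset_eq_degree, ← H.card_incidenceFinset_eq_degree]
    refine (card_le_card ?_).trans (card_union_le _ _)
    intro e he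
    rw [SimpleGraph.mem_edgeFinset] at he
    obtain ⟨x, rfl⟩ := D.surj e he
    rw [mem_union, SimpleGraph.mem_incidenceFinset, SimpleGraph.mem_incidenceFinset]
    rcases F2 x with h | h
    · exact Or.inl ⟨he, h⟩
    · exact Or.inr ⟨he, h⟩
  have hcount2 : H.degree c + 3 ≤ Fintype.card V := by
    have h3 : #(insert a (insert b (insert c (H.neighborFinset c)))) = H.degree c + 3 := by
      rw [card_insert_of_notMem, card_insert_of_notMem, card_insert_of_notMem, H.card_neighborFinset_eq_degree]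
      · rw [SimpleGraph.mem_neighborFinset]; exact H.irrefl
      · rw [mem_insert, SimpleGraph.mem_neighborFinset, not_or]; exact ⟨hcb.symm, hnb⟩
      · rw [mem_insert, mem_insert, SimpleGraph.mem_neighborFinset, not_or, not_or]; exact ⟨Hab.ne, hca.symm, hna⟩
    rw [← h3]
    exact card_le_univ _
  have hdb : ∀ v, H.Adj b v → v = a := hB
  have hda : 3 ≤ H.degree a := by omega
  have hd0 : 3 ≤ H.degree x0 := by have := hmax a; omega
  rcases F2 b with h | h
  · obtain ⟨r, hr, hr'⟩ := D.form h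
    have key : ∀ v, H.Adj x0 v → v = a ∨ P v = s(c, r) := by
      intro v hv
      by_cases hrv : r ∈ P v
      · right
        have hcr : c ≠ r := by
          rintro rfl
          exact (hdisj b (by rw [hr]; simp)).1 h
        exact (Sym2.mem_and_mem_iff hcr).1 ⟨(inc v).1 hv, hrv⟩
      · left
        refine hdb v (hE b v h ((inc v).1 hv) fun x hx => ?_)
        rw [hr, Sym2.mem_iff] at hx
        rcases hx with rfl | rfl
        · exact (hdisj v ((inc v).1 hv)).1
        · exact hrv
    rw [← H.card_neighborFinset_eq_degree] at hd0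
    obtain ⟨v1, m1, v2, m2, v3, m3, n12, n13, n23⟩ := two_lt_card.1 (show 2 < #(H.neighborFinset x0) by omega)
    rw [SimpleGraph.mem_neighborFinset] at m1 m2 m3
    rcases key v1 m1 with e1 | e1 <;> rcases key v2 m2 with e2 | e2 <;> rcases key v3 m3 with e3 | e3
    · exact n12 (e1.trans e2.symm)
    · exact n12 (e1.trans e2.symm)
    · exact n13 (e1.trans e3.symm)
    · exact n23 (D.inj (e2.trans e3.symm))
    · exact n23 (e2.trans e3.symm)
    · exact n13 (D.inj (e1.trans e3.symm))
    · exact n12 (D.inj (e1.trans e2.symm))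
    · exact n12 (D.inj (e1.trans e2.symm))
  · obtain ⟨r, hr, hr'⟩ := D.form h
    have key : ∀ t, H.Adj a t → t = r ∨ P a = s(a, t) := by
      intro t ht
      obtain ⟨u, hu⟩ := D.surj s(a, t) ht
      by_cases hrt : t = r
      · exact Or.inl hrt
      · right
        have hcu : c ∉ P u := fun h' => (hdisj u h').1 (by rw [hu]; simp)
        have hab' : H.Adj u b := by
          refine hE u b (by rw [hu]; simp) h fun x hx hxb => ?_
          rw [hr, Sym2.mem_iff] at hxb
          rcases hxb with rfl | rfl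
          · exact hcu hx
          · rw [hu, Sym2.mem_iff] at hx
            rcases hx with rfl | rfl
            · exact (hdisj b h).1 (by rw [hr]; simp)
            · exact hrt rfl
        have := hdb u hab'.symm
        rw [this] at hu
        exact hu
    rw [← H.card_neighborFinset_eq_degree] at hda
    obtain ⟨v1, m1, v2, m2, v3, m3, n12, n13, n23⟩ := two_lt_card.1 (show 2 < #(H.neighborFinset a) by omega)
    rw [SimpleGraph.mem_neighborFinset] at m1 m2 m3
    have cong : ∀ s t, P a = s(a, s) → P a = s(a, t) → s = t := by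
      intro s t hs ht
      rw [hs] at ht
      exact Sym2.congr_right.1 ht
    rcases key v1 m1 with e1 | e1 <;> rcases key v2 m2 with e2 | e2 <;> rcases key v3 m3 with e3 | e3
    · exact n12 (e1.trans e2.symm)
    · exact n12 (e1.trans e2.symm)
    · exact n13 (e1.trans e3.symm)
    · exact n23 (cong _ _ e2 e3)
    · exact n23 (e2.trans e3.symm)
    · exact n13 (cong _ _ e1 e3)
    · exact n12 (cong _ _ e1 e2)
    · exact n12 (cong _ _ e1 e2)

theorem Data.finish (D : Data H P) {x0 a b c y0 : V} (hmax : ∀ v, H.degree v ≤ H.degree x0)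
    (ht : 2 ≤ H.degree x0) (hab : P x0 = s(a, b)) (inc : ∀ w, H.Adj x0 w ↔ c ∈ P w)
    (F : ∀ w, a ∉ P w → b ∉ P w → c ∈ P w) (hdeg : H.degree c = H.degree x0)
    (hy0 : y0 ≠ x0) (hcy : c ∉ P y0) (hdy : 2 ≤ H.degree y0) (ha : a ∈ P y0) : Five P := by
  obtain ⟨p, hy, -⟩ := D.form ha
  have hpb : p ≠ b := by
    rintro rfl
    exact hy0 (D.inj (hy.trans hab.symm))
  by_cases hex : ∃ z, H.Adj y0 z ∧ b ∈ P z
  · obtain ⟨z, hyz, hbz⟩ := hex
    obtain ⟨q, hz, -⟩ := D.form hbz
    exact D.caseA hmax ht hab inc F hdeg hy hpb hcy hz hyz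
  · push Not at hex
    rw [← H.card_neighborFinset_eq_degree] at hdy
    obtain ⟨z1, m1, z2, m2, hne⟩ := one_lt_card.1 (show 1 < #(H.neighborFinset y0) by omega)
    rw [SimpleGraph.mem_neighborFinset] at m1 m2
    exact (D.caseB hmax hab inc F hdeg hy hpb hcy hne m1 m2 hex).elim

theorem Data.five (D : Data H P) [Nonempty V] : Five P := by
  obtain ⟨x0, ht, hmax⟩ := D.exists_max
  obtain ⟨a, ha⟩ : ∃ a, a ∈ P x0 := ⟨_, Sym2.out_fst_mem (P x0)⟩
  obtain ⟨b, hab, Hab⟩ := D.form ha
  have ht' := ht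
  rw [← H.card_neighborFinset_eq_degree] at ht'
  obtain ⟨y1, m1, y2, m2, hne⟩ := one_lt_card.1 (show 1 < #(H.neighborFinset x0) by omega)
  rw [SimpleGraph.mem_neighborFinset] at m1 m2
  have hN : ∀ y, H.Adj x0 y → a ∉ P y ∧ b ∉ P y := fun y hy =>
    ⟨((D.adj x0 y).1 hy).1 a (by rw [hab]; simp), ((D.adj x0 y).1 hy).1 b (by rw [hab]; simp)⟩
  have hcov : ∀ y, H.Adj x0 y → ∀ w, a ∉ P w → b ∉ P w → ∃ v, v ∈ P w ∧ v ∈ P y := by
    intro y hy w h1 h2
    obtain ⟨v, hv, hv'⟩ := ((D.adj x0 y).1 hy).2 w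
    rcases hv' with h | h
    · rw [hab, Sym2.mem_iff] at h
      rcases h with rfl | rfl
      · exact absurd hv h1
      · exact absurd hv h2
    · exact ⟨v, hv, h⟩
  obtain ⟨c, hc2, hc1⟩ := hcov y1 m1 y2 (hN y2 m2).1 (hN y2 m2).2
  obtain ⟨x1, e1, f1⟩ := D.form hc1
  obtain ⟨x2, e2, f2⟩ := D.form hc2
  have h12 : x1 ≠ x2 := by
    rintro rfl
    exact hne (D.inj (e1.trans e2.symm))
  have F : ∀ w, a ∉ P w → b ∉ P w → c ∈ P w := by
    intro w h1 h2
    by_contra hc
    obtain ⟨v, hv, hv'⟩ := hcov y1 m1 w h1 h2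
    obtain ⟨u, hu, hu'⟩ := hcov y2 m2 w h1 h2
    rw [e1, Sym2.mem_iff] at hv'
    rw [e2, Sym2.mem_iff] at hu'
    rcases hv' with rfl | rfl
    · exact hc hv
    rcases hu' with rfl | rfl
    · exact hc hu
    have h3 := (Sym2.mem_and_mem_iff h12).1 ⟨hv, hu⟩
    have h4 := D.mem w
    rw [h3] at h4
    exact D.tri c _ _ f1 f2 h4
  have himg : (H.neighborFinset x0).image P ⊆ H.incidenceFinset c := by
    intro e he
    obtain ⟨y, hy, rfl⟩ := mem_image.1 he
    rw [SimpleGraph.mem_neighborFinset] at hy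
    rw [SimpleGraph.mem_incidenceFinset]
    exact ⟨D.mem y, F y (hN y hy).1 (hN y hy).2⟩
  have hcard : #((H.neighborFinset x0).image P) = H.degree x0 := by
    rw [card_image_of_injective _ D.inj, H.card_neighborFinset_eq_degree]
  have heq : (H.neighborFinset x0).image P = H.incidenceFinset c :=
    eq_of_subset_of_card_le himg (by rw [hcard, H.card_incidenceFinset_eq_degree]; exact hmax c)
  have hdeg : H.degree c = H.degree x0 := by
    rw [← hcard, heq, H.card_incidenceFinset_eq_degree]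
  have inc : ∀ w, H.Adj x0 w ↔ c ∈ P w := by
    intro w
    constructor
    · intro h
      exact F w (hN w h).1 (hN w h).2
    · intro h
      have h1 : P w ∈ (H.neighborFinset x0).image P := by
        rw [heq, SimpleGraph.mem_incidenceFinset]
        exact ⟨D.mem w, h⟩
      obtain ⟨y, hy, hyw⟩ := mem_image.1 h1
      rw [← D.inj hyw]
      rwa [SimpleGraph.mem_neighborFinset] at hy
  -- a vertex of degree at least two outside of the star of `x0`
  obtain ⟨y0, hy0, hy0', hdy⟩ : ∃ y0, y0 ≠ x0 ∧ ¬ H.Adj x0 y0 ∧ 2 ≤ H.degree y0 := by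
    by_contra hcon
    push Not at hcon
    have h1 : #((insert x0 (H.neighborFinset x0))ᶜ) = Fintype.card V - (H.degree x0 + 1) := by
      rw [card_compl, card_insert_of_notMem (by rw [SimpleGraph.mem_neighborFinset]; exact H.irrefl),
        H.card_neighborFinset_eq_degree]
    have h2 : H.degree x0 + 1 ≤ Fintype.card V := by
      rw [← H.card_neighborFinset_eq_degree,
        ← card_insert_of_notMem (a := x0) (by rw [SimpleGraph.mem_neighborFinset]; exact H.irrefl)]
      exact card_le_univ _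
    have h3 : H.edgeFinset ⊆ H.incidenceFinset x0 ∪
        ((insert x0 (H.neighborFinset x0))ᶜ).biUnion fun y => H.incidenceFinset y := by
      intro e he
      rw [SimpleGraph.mem_edgeFinset] at he
      induction e using Sym2.ind with
      | _ u v =>
        rw [mem_union, SimpleGraph.mem_incidenceFinset, mem_biUnion]
        by_cases hu : u = x0
        · left; exact ⟨he, by rw [hu]; simp⟩
        by_cases hv : v = x0
        · left; exact ⟨he, by rw [hv]; simp⟩
        right
        by_cases hu' : H.Adj x0 u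
        · by_cases hv' : H.Adj x0 v
          · exact absurd he (D.tri x0 u v hu' hv')
          · refine ⟨v, ?_, ?_⟩
            · rw [mem_compl, mem_insert, SimpleGraph.mem_neighborFinset, not_or]; exact ⟨hv, hv'⟩
            · rw [SimpleGraph.mem_incidenceFinset]; exact ⟨he, by simp⟩
        · refine ⟨u, ?_, ?_⟩
          · rw [mem_compl, mem_insert, SimpleGraph.mem_neighborFinset, not_or]; exact ⟨hu, hu'⟩
          · rw [SimpleGraph.mem_incidenceFinset]; exact ⟨he, by simp⟩
    have h4 := (card_le_card h3).trans (card_union_le _ _)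
    have h5 : #(((insert x0 (H.neighborFinset x0))ᶜ).biUnion fun y => H.incidenceFinset y)
        ≤ #((insert x0 (H.neighborFinset x0))ᶜ) * 1 := by
      refine card_biUnion_le_card_mul _ _ _ fun y hy => ?_
      rw [mem_compl, mem_insert, SimpleGraph.mem_neighborFinset, not_or] at hy
      rw [H.card_incidenceFinset_eq_degree]
      have := hcon y hy.1 hy.2
      omega
    rw [D.card_eq, H.card_incidenceFinset_eq_degree] at h4
    omega
  have hcy : c ∉ P y0 := fun h => hy0' ((inc y0).2 h)
  by_cases hay : a ∈ P y0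
  · exact D.finish hmax ht hab inc F hdeg hy0 hcy hdy hay
  · by_cases hby : b ∈ P y0
    · exact D.finish hmax ht (hab.trans Sym2.eq_swap) inc (fun w h1 h2 => F w h2 h1) hdeg hy0 hcy hdy hby
    · exact absurd (F y0 hay hby) hcy

end Pool.Agent.KS6_12.IG
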